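import Pool.Agent.H937.QS.Stm2

set_option autoImplicit false

open scoped Matrix TensorProduct
open Pool.Agent.H937.QS
universe u
namespace Pool.Agent.H271.QS.COV

/-- values are in the valuation ring -/
theorem ev_mem {k B M : Type u} [Field k] [CommRing B] [Algebra k B] [Field M] [Algebra k M]
    {n : ℕ} (ev : B →ₐ[k] (Fin n → M)) (V : ValuationSubring M) (hV : ∀ x ∈ Esym k ev, x ∈ V)
    (b : B) (q : Fin n) : ev b q ∈ V := by
  set P : Polynomial M := ∏ q, (Polynomial.X - Polynomial.C (ev b q)) with hP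
  have hmon : P.Monic := Polynomial.monic_prod_of_monic _ _ fun q _ => Polynomial.monic_X_sub_C _
  have hroot : P.eval (ev b q) = 0 := by
    rw [hP, Polynomial.eval_prod]
    apply Finset.prod_eq_zero (Finset.mem_univ q)
    rw [Polynomial.eval_sub, Polynomial.eval_X, Polynomial.eval_C, sub_self]
  have hlift : P ∈ Polynomial.lifts (algebraMap V M) := by
    rw [Polynomial.lifts_iff_coeff_lifts]
    intro m
    refine ⟨⟨P.coeff m, hV _ (Algebra.subset_adjoin ⟨b, m, rfl⟩)⟩, rfl⟩
  obtain ⟨Q, hQ, -, hQm⟩ := Polynomial.lifts_and_natDegree_eq_and_monic hlift hmon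
  have hint : IsIntegral V (ev b q) := by
    refine ⟨Q, hQm, ?_⟩
    rw [← Polynomial.eval_map, hQ]
    exact hroot
  obtain ⟨y, hy⟩ := (IsIntegrallyClosed.isIntegral_iff (R := V) (K := M)).1 hint
  rw [← hy]
  exact y.2

/-- Vandermonde -/
theorem fd_pow {M : Type u} [Field M] (x y : Fin 4 → M) (hy : y = fun q => x q ^ 2)
    (hx : Function.Injective x) : fd x y ≠ 0 := by
  have h1 : cols x y (fun q => x q * y q) = Matrix.vandermonde x := by
    ext q i
    rw [hy]
    fin_cases i
    · simp [cols, Matrix.vandermonde_apply]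
    · simp [cols, Matrix.vandermonde_apply]
    · simp [cols, Matrix.vandermonde_apply]
    · simp only [cols, Matrix.vandermonde_apply, Matrix.of_apply]
      show x q * x q ^ 2 = x q ^ 3
      ring
  rw [fd, h1]
  exact Matrix.det_vandermonde_ne_zero_iff.2 hx

theorem t_COV (hVAL : S_VAL.{u}) : S_COV.{u} := by
  intro k B M _ a ha _ _ _ _ ev b0 hb0 n w hw0 hw V hV
  have hspan : ∀ b : B, InSpan V (fun l => ev (w l)) (ev b) := by
    intro b
    obtain ⟨c, hc, hc2⟩ := hw b
    refine ⟨c, fun l => hV _ (hc l), ?_⟩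
    funext q
    rw [hc2 q, Finset.sum_apply]
    rfl
  obtain ⟨c, c', i, hc, hc', hmain⟩ := hVAL k M V
    (fun c => hV _ ((Esym k ev).algebraMap_mem c)) a ha n (fun l => ev (w l))
    (fun l q => ev_mem ev V hV (w l) q)
    (by
      show ev (w 0) = 1
      rw [hw0, map_one])
    (fun l m => by
      show InSpan V (fun l => ev (w l)) (ev (w l) * ev (w m))
      rw [← map_mul]
      exact hspan _)
    ⟨ev b0, ev (b0 ^ 2), hspan _, hspan _, fd_pow _ _ (by rw [map_pow]; rfl) hb0⟩
  refine ⟨c, c', i, hc, hc', ?_⟩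
  intro x y hx hy N hN
  obtain ⟨h1, h2, h3, h4⟩ := hmain (ev x) (ev y)
    (by rw [hx, map_add, map_add, map_smul, map_smul, map_smul])
    (by rw [hy, map_add, map_add, map_smul, map_smul, map_smul]) N hN
  refine ⟨h1, h2, ?_, ?_⟩
  · intro h
    exact h3 (fun r => ev (h r)) fun r => hspan (h r)
  · intro x' y' z' X
    exact h4 (ev x') (ev y') (ev z') (hspan _) (hspan _) (hspan _) X

end Pool.Agent.H271.QS.COV
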